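import Pool.Agent.H34.RM.Rows2

/-!
ROW AP of project RM (MP_28724c_co): the finite `w` form of a polynomial certificate inequality.
-/

namespace Pool.Agent.H84.RM

open Pool.Agent.H34.RM

/-- the finite form of the exponential -/
noncomputable def FF (w : ℕ) (y : ℝ) : ℝ := (max (1 + y / w) 0) ^ w

lemma FF_nonneg (w : ℕ) (y : ℝ) : 0 ≤ FF w y := pow_nonneg (le_max_right _ _) _

lemma FF_le_exp (w : ℕ) (hw : 1 ≤ w) (y : ℝ) : FF w y ≤ Real.exp y := by
  have hw0 : (0 : ℝ) < w := by exact_mod_cast hw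
  have h1 : max (1 + y / w) 0 ≤ Real.exp (y / w) :=
    max_le (by linarith [Real.add_one_le_exp (y / w)]) (Real.exp_pos _).le
  have h2 : (Real.exp (y / w)) ^ w = Real.exp y := by
    rw [← Real.exp_nat_mul]
    congr 1
    field_simp
  calc FF w y ≤ (Real.exp (y / w)) ^ w := pow_le_pow_left₀ (le_max_right _ _) h1 w
    _ = Real.exp y := h2

/-- polynomial growth from below -/
lemma FF_ge (w k : ℕ) (hk : 1 ≤ k) (hw : 2 * k ≤ w) (y : ℝ) (hy : 0 ≤ y) :
    (y / (2 * k)) ^ k ≤ FF w y := by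
  have hw1 : 1 ≤ w := by omega
  have hw0 : (0 : ℝ) < w := by exact_mod_cast hw1
  have hk0 : (0 : ℝ) < k := by exact_mod_cast hk
  have hx : 0 ≤ y / w := div_nonneg hy hw0.le
  have hm : max (1 + y / w) 0 = 1 + y / w := max_eq_left (by linarith)
  have hq : w / k * k ≤ w := Nat.div_mul_le_self w k
  have hq2 : w < 2 * (w / k * k) := by
    have h1 : w % k < k := Nat.mod_lt _ (by omega)
    have h2 : k * (w / k) + w % k = w := Nat.div_add_mod w k
    have h3 : w / k * k = k * (w / k) := Nat.mul_comm _ _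
    omega
  have hq3 : (w : ℝ) < 2 * ((w / k : ℕ) * k) := by exact_mod_cast hq2
  have hB : 1 + ((w / k : ℕ) : ℝ) * (y / w) ≤ (1 + y / w) ^ (w / k) :=
    one_add_mul_le_pow (by linarith) _
  have hy2 : y / (2 * k) ≤ 1 + ((w / k : ℕ) : ℝ) * (y / w) := by
    have h4 : y / (2 * k) ≤ ((w / k : ℕ) : ℝ) * (y / w) := by
      rw [mul_div_assoc', div_le_div_iff₀ (by positivity) hw0]
      nlinarith [mul_le_mul_of_nonneg_left hq3.le hy]
    linarith
  calc (y / (2 * k)) ^ k ≤ ((1 + y / w) ^ (w / k)) ^ k :=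
        pow_le_pow_left₀ (by positivity) (hy2.trans hB) k
    _ = (1 + y / w) ^ (w / k * k) := by rw [pow_mul]
    _ ≤ (1 + y / w) ^ w := pow_le_pow_right₀ (by linarith) hq
    _ = FF w y := by rw [FF, hm]

lemma one_add_ge_exp (x : ℝ) (hx : -(1 / 2) ≤ x) : Real.exp (x - 2 * x ^ 2) ≤ 1 + x := by
  have h1 : 1 + (2 * x ^ 2 - x) ≤ Real.exp (2 * x ^ 2 - x) := by
    linarith [Real.add_one_le_exp (2 * x ^ 2 - x)]
  have h2 : 0 < 1 + (2 * x ^ 2 - x) := by nlinarith [sq_nonneg (x - 1 / 4)]
  have h3 : Real.exp (x - 2 * x ^ 2) * Real.exp (2 * x ^ 2 - x) = 1 := by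
    rw [← Real.exp_add]
    have : x - 2 * x ^ 2 + (2 * x ^ 2 - x) = 0 := by ring
    rw [this, Real.exp_zero]
  have h4 : 1 ≤ (1 + x) * (1 + (2 * x ^ 2 - x)) := by
    nlinarith [mul_nonneg (sq_nonneg x) (by linarith : (0 : ℝ) ≤ 1 + 2 * x)]
  have h5 : 0 < Real.exp (x - 2 * x ^ 2) := Real.exp_pos _
  have h6 : Real.exp (x - 2 * x ^ 2) * (1 + (2 * x ^ 2 - x)) ≤ 1 := by
    calc Real.exp (x - 2 * x ^ 2) * (1 + (2 * x ^ 2 - x))
        ≤ Real.exp (x - 2 * x ^ 2) * Real.exp (2 * x ^ 2 - x) :=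
          mul_le_mul_of_nonneg_left h1 h5.le
      _ = 1 := h3
  by_contra hc
  push Not at hc
  nlinarith [mul_lt_mul_of_pos_right hc h2]

lemma FF_ge_exp (w : ℕ) (hw : 1 ≤ w) (y : ℝ) (hy : -(w / 2 : ℝ) ≤ y) :
    Real.exp (y - 2 * y ^ 2 / w) ≤ FF w y := by
  have hw0 : (0 : ℝ) < w := by exact_mod_cast hw
  have hx : -(1 / 2) ≤ y / w := by
    rw [le_div_iff₀ hw0]
    linarith
  have h1 := one_add_ge_exp (y / w) hx
  have h2 : Real.exp (y / w - 2 * (y / w) ^ 2) ≤ max (1 + y / w) 0 := h1.trans (le_max_left _ _)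
  have h3 : (Real.exp (y / w - 2 * (y / w) ^ 2)) ^ w = Real.exp (y - 2 * y ^ 2 / w) := by
    rw [← Real.exp_nat_mul]
    congr 1
    field_simp
  rw [← h3]
  exact pow_le_pow_left₀ (Real.exp_pos _).le h2 w

/-- one sided uniform approximation on a half line -/
lemma half_line (R δ : ℝ) (hδ : 0 < δ) : ∃ (e1 : ℝ) (W : ℕ), 0 < e1 ∧ e1 ≤ 1 / 2 ∧ 1 ≤ W ∧
    ∀ w : ℕ, W ≤ w → ∀ y y' : ℝ, y' ≤ R → |y - y'| ≤ e1 * |y'| →
      Real.exp y' ≤ FF w y + δ := by
  set R1 : ℝ := |R| + |Real.log δ| with hR1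
  have hR1n : 0 ≤ R1 := by positivity
  set κ : ℝ := δ * Real.exp (-R) with hκ
  have hκ0 : 0 < κ := by positivity
  set e1 : ℝ := min (1 / 2) (κ / (2 * (R1 + 1))) with he1
  obtain ⟨W, hW⟩ := exists_nat_ge (max (16 * R1 ^ 2 / κ) (4 * R1))
  refine ⟨e1, W + 1, ?_, min_le_left _ _, by omega, ?_⟩
  · exact lt_min (by norm_num) (by positivity)
  intro w hw y y' hy' hyy
  have hw1 : 1 ≤ w := by omega
  have hw0 : (0 : ℝ) < w := by exact_mod_cast hw1
  have hwW : (W : ℝ) ≤ w := by exact_mod_cast (by omega : W ≤ w)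
  have hwa : 16 * R1 ^ 2 / κ ≤ w := (le_max_left _ _).trans (hW.trans hwW)
  have hwb : 4 * R1 ≤ w := (le_max_right _ _).trans (hW.trans hwW)
  rcases le_or_gt y' (Real.log δ) with hl | hl
  · have : Real.exp y' ≤ δ := by
      calc Real.exp y' ≤ Real.exp (Real.log δ) := Real.exp_le_exp.mpr hl
        _ = δ := Real.exp_log hδ
    linarith [FF_nonneg w y]
  · have ha : |y'| ≤ R1 := by
      rw [abs_le]
      constructor
      · have := neg_abs_le (Real.log δ)
        have := abs_nonneg R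
        linarith
      · have := le_abs_self R
        have := abs_nonneg (Real.log δ)
        linarith
    have he1a : e1 ≤ 1 / 2 := min_le_left _ _
    have he1b : e1 ≤ κ / (2 * (R1 + 1)) := min_le_right _ _
    have he10 : 0 < e1 := lt_min (by norm_num) (by positivity)
    have hd : |y - y'| ≤ κ / 2 := by
      calc |y - y'| ≤ e1 * |y'| := hyy
        _ ≤ κ / (2 * (R1 + 1)) * R1 := mul_le_mul he1b ha (abs_nonneg _) (by positivity)
        _ ≤ κ / 2 := by
          rw [div_mul_eq_mul_div, div_le_div_iff₀ (by positivity) (by norm_num)]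
          nlinarith
    have hd2 : |y - y'| ≤ 1 / 2 * R1 := hyy.trans (mul_le_mul he1a ha (abs_nonneg _) (by norm_num))
    have hya : |y| ≤ 2 * R1 := by
      have : |y| ≤ |y - y'| + |y'| := by
        have := abs_add_le (y - y') y'
        simpa using this
      linarith
    have hyw : -(w / 2 : ℝ) ≤ y := by
      have := neg_abs_le y
      linarith
    have h1 := FF_ge_exp w hw1 y hyw
    have hy2 : 2 * y ^ 2 / w ≤ κ / 2 := by
      have h2 : y ^ 2 ≤ 4 * R1 ^ 2 := by
        have := abs_nonneg y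
        have h3 : |y| ^ 2 ≤ (2 * R1) ^ 2 := pow_le_pow_left₀ (abs_nonneg y) hya 2
        rw [sq_abs] at h3
        linarith
      rw [div_le_iff₀ hw0]
      rw [div_le_iff₀ hκ0] at hwa
      nlinarith
    have h4 : y' - (y - 2 * y ^ 2 / w) ≤ κ := by
      have := neg_abs_le (y - y')
      linarith
    have h5 : Real.exp y' * (1 - κ) ≤ Real.exp (y - 2 * y ^ 2 / w) := by
      have h6 : 1 - κ ≤ Real.exp (-κ) := by linarith [Real.add_one_le_exp (-κ)]
      calc Real.exp y' * (1 - κ) ≤ Real.exp y' * Real.exp (-κ) :=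
            mul_le_mul_of_nonneg_left h6 (Real.exp_pos _).le
        _ = Real.exp (y' - κ) := by rw [← Real.exp_add]; rfl
        _ ≤ _ := Real.exp_le_exp.mpr (by linarith)
    have h7 : Real.exp y' * κ ≤ δ := by
      have h8 : Real.exp y' ≤ Real.exp R := Real.exp_le_exp.mpr hy'
      calc Real.exp y' * κ ≤ Real.exp R * κ := mul_le_mul_of_nonneg_right h8 hκ0.le
        _ = δ * (Real.exp R * Real.exp (-R)) := by rw [hκ]; ring
        _ = δ := by rw [← Real.exp_add]; simp
    nlinarith

/-- ROW AP. -/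
theorem rowAP : RowAP := by
  intro n cf la l1 t C m hla hl1 ht ht1 hC hcert hgrow ε hε
  set k : ℕ := m + 1 with hk
  have hk1 : 1 ≤ k := by omega
  have hk0 : (0 : ℝ) < k := by exact_mod_cast hk1
  -- constant of the polynomial growth
  set c : ℝ := (1 / (4 * k : ℝ)) ^ k with hc
  have hc0 : 0 < c := by positivity
  set R : ℝ := 1 + 3 * C / (ε * c) with hR
  have hRC : 0 ≤ 3 * C / (ε * c) := by positivity
  have hR1 : 1 ≤ R := by linarith
  have hR2 : 3 * C ≤ ε * c * R := by
    have h1 : 3 * C / (ε * c) ≤ R := by linarith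
    rw [div_le_iff₀ (by positivity)] at h1
    linarith
  set A : ℝ := la * (2 * Real.exp (3 / 2 * R) + 1) + 2 * l1 + 1 with hA
  have hA0 : 0 < A := by positivity
  set δ : ℝ := min 1 (ε / A) with hδ
  have hδ0 : 0 < δ := lt_min one_pos (by positivity)
  have hδ1 : δ ≤ 1 := min_le_left _ _
  have hδA : δ * A ≤ ε := by
    have h1 : δ ≤ ε / A := min_le_right _ _
    rwa [le_div_iff₀ hA0] at h1
  obtain ⟨e1, W, he1, he2, hW1, hH⟩ := half_line R δ hδ0
  refine ⟨e1, max W (2 * k), he1, he2, le_trans hW1 (le_max_left _ _), ?_⟩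
  intro w w' hw hw' y z y' z' hy hz
  have hwW : W ≤ w := (le_max_left _ _).trans hw
  have hwk : 2 * k ≤ w := (le_max_right _ _).trans hw
  have hwW' : W ≤ w' := (le_max_left _ _).trans hw'
  have hwk' : 2 * k ≤ w' := (le_max_right _ _).trans hw'
  have hw1 : 1 ≤ w := by omega
  have hw1' : 1 ≤ w' := by omega
  change pol n cf y' z' ≤ la * (FF w y * FF w' (t * z)) + l1 * (FF w y + FF w' z)
    + ε * (1 + FF w y + FF w' z)
  have F1 := FF_nonneg w y
  have F2 := FF_nonneg w' z
  have F3 := FF_nonneg w' (t * z)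
  -- lower bounds at nonnegative points
  have key : ∀ (v : ℕ) (x x' : ℝ), 2 * k ≤ v → |x - x'| ≤ e1 * |x'| → 0 ≤ x' →
      c * x' ^ k ≤ FF v x := by
    intro v x x' hv hx hx'
    rw [abs_of_nonneg hx'] at hx
    have h1 : x' / 2 ≤ x := by
      have h2 := neg_abs_le (x - x')
      nlinarith
    have hx0 : 0 ≤ x := by linarith
    have h3 := FF_ge v k hk1 hv x hx0
    have h4 : (x' / (4 * k)) ^ k ≤ (x / (2 * k)) ^ k := by
      refine pow_le_pow_left₀ (by positivity) ?_ k
      rw [div_le_div_iff₀ (by positivity) (by positivity)]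
      nlinarith
    have h5 : (x' / (4 * k)) ^ k = c * x' ^ k := by
      rw [hc, ← mul_pow]
      congr 1
      ring
    linarith
  rcases le_or_gt (max y' z') R with hm | hm
  · -- bounded from above
    have hyR : y' ≤ R := (le_max_left _ _).trans hm
    have hzR : z' ≤ R := (le_max_right _ _).trans hm
    have g1 := hH w hwW y y' hyR hy
    have g2 := hH w' hwW' z z' hzR hz
    have htz : t * z' ≤ R := by
      rcases le_or_gt 0 z' with h0 | h0
      · nlinarith
      · nlinarith
    have habs : |t * z - t * z'| ≤ e1 * |t * z'| := by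
      rw [← mul_sub, abs_mul, abs_mul, abs_of_nonneg ht]
      nlinarith
    have g3 := hH w' hwW' (t * z) (t * z') htz habs
    -- upper bounds of the finite forms
    have up : ∀ x x' : ℝ, x' ≤ R → |x - x'| ≤ e1 * |x'| → x ≤ 3 / 2 * R := by
      intro x x' hx' hx
      have h2 := le_abs_self (x - x')
      rcases le_or_gt 0 x' with h0 | h0
      · rw [abs_of_nonneg h0] at hx
        nlinarith
      · rw [abs_of_neg h0] at hx
        nlinarith
    have u1 : FF w y ≤ Real.exp (3 / 2 * R) :=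
      (FF_le_exp w hw1 y).trans (Real.exp_le_exp.mpr (up y y' hyR hy))
    have u3 : FF w' (t * z) ≤ Real.exp (3 / 2 * R) :=
      (FF_le_exp w' hw1' (t * z)).trans (Real.exp_le_exp.mpr (up (t * z) (t * z') htz habs))
    have hprod : Real.exp (y' + t * z') ≤ FF w y * FF w' (t * z)
        + δ * (2 * Real.exp (3 / 2 * R) + 1) := by
      rw [Real.exp_add]
      calc Real.exp y' * Real.exp (t * z') ≤ (FF w y + δ) * (FF w' (t * z) + δ) :=
            mul_le_mul g1 g3 (Real.exp_pos _).le (by linarith)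
        _ = FF w y * FF w' (t * z) + δ * (FF w y + FF w' (t * z) + δ) := by ring
        _ ≤ _ := by
          have : FF w y + FF w' (t * z) + δ ≤ 2 * Real.exp (3 / 2 * R) + 1 := by linarith
          have := mul_le_mul_of_nonneg_left this hδ0.le
          linarith
    have h1 := hcert y' z'
    have h2 := mul_le_mul_of_nonneg_left hprod hla
    have h3 : l1 * (Real.exp y' + Real.exp z') ≤ l1 * (FF w y + FF w' z + 2 * δ) :=
      mul_le_mul_of_nonneg_left (by linarith) hl1
    have h4 : la * (δ * (2 * Real.exp (3 / 2 * R) + 1)) + l1 * (2 * δ) ≤ ε := by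
      have : la * (δ * (2 * Real.exp (3 / 2 * R) + 1)) + l1 * (2 * δ) = δ * (A - 1) := by
        rw [hA]; ring
      rw [this]
      nlinarith
    have h5 : 0 ≤ ε * (FF w y + FF w' z) := by positivity
    nlinarith
  · -- large points
    have hg := hgrow y' z'
    set u : ℝ := max y' 0 with hu
    set v : ℝ := max z' 0 with hv
    have hu0 : 0 ≤ u := le_max_right _ _
    have hv0 : 0 ≤ v := le_max_right _ _
    have ku : c * u ^ k ≤ FF w y := by
      rcases le_or_gt 0 y' with h0 | h0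
      · have : u = y' := max_eq_left h0
        rw [this]
        exact key w y y' hwk hy h0
      · have : u = 0 := max_eq_right h0.le
        rw [this, zero_pow (by omega)]
        simpa using F1
    have kv : c * v ^ k ≤ FF w' z := by
      rcases le_or_gt 0 z' with h0 | h0
      · have : v = z' := max_eq_left h0
        rw [this]
        exact key w' z z' hwk' hz h0
      · have : v = 0 := max_eq_right h0.le
        rw [this, zero_pow (by omega)]
        simpa using F2
    set M : ℝ := max u v with hM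
    have hMR : R ≤ M := by
      rcases lt_max_iff.mp hm with h | h
      · exact h.le.trans ((le_max_left _ _).trans (le_max_left _ _))
      · exact h.le.trans ((le_max_left _ _).trans (le_max_right _ _))
    have hM1 : 1 ≤ M := hR1.trans hMR
    have hum : u ^ m ≤ M ^ m := pow_le_pow_left₀ hu0 (le_max_left _ _) m
    have hvm : v ^ m ≤ M ^ m := pow_le_pow_left₀ hv0 (le_max_right _ _) m
    have h1m : 1 ≤ M ^ m := one_le_pow₀ hM1
    have hMk : c * M ^ k ≤ FF w y + FF w' z := by
      rcases max_choice u v with h | h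
      · rw [hM, h]; linarith
      · rw [hM, h]; linarith
    have hsum : C * (1 + u ^ m + v ^ m) ≤ 3 * C * M ^ m := by
      have : 1 + u ^ m + v ^ m ≤ 3 * M ^ m := by linarith
      nlinarith
    have hfin : 3 * C * M ^ m ≤ ε * (c * M ^ k) := by
      have h6 : 3 * C ≤ ε * c * M := hR2.trans (mul_le_mul_of_nonneg_left hMR (by positivity))
      have h7 : 0 ≤ M ^ m := by positivity
      calc 3 * C * M ^ m ≤ ε * c * M * M ^ m := mul_le_mul_of_nonneg_right h6 h7
        _ = ε * (c * M ^ k) := by rw [hk, pow_succ]; ring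
    have h8 : ε * (c * M ^ k) ≤ ε * (1 + FF w y + FF w' z) :=
      mul_le_mul_of_nonneg_left (by linarith) hε.le
    have h9 : 0 ≤ la * (FF w y * FF w' (t * z)) := by positivity
    have h10 : 0 ≤ l1 * (FF w y + FF w' z) := by positivity
    linarith

end Pool.Agent.H84.RM
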